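import Mathlib
import Pool.Agent.H43.RelaxTime

set_option autoImplicit false

/-!
For every `m ≥ 1` the path with `m` edges maximises the relaxation time of simple random walk among
all connected graphs with `m` edges (and hence among all trees with `m` edges).
-/

namespace Pool.Agent.Results.MP_ea35a0_co.ExactMax

open Finset

open Classical in
/-- Transition matrix of simple random walk: `P(x,y) = 1/deg x` if `x ~ y`, else `0`. -/
noncomputable def srw {n : ℕ} (G : SimpleGraph (Fin n)) : Matrix (Fin n) (Fin n) ℝ :=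
  fun x y => if G.Adj x y then 1 / (G.degree x : ℝ) else 0

/-- `μ` is an eigenvalue of simple random walk on `G`. -/
def IsEig {n : ℕ} (G : SimpleGraph (Fin n)) (μ : ℝ) : Prop :=
  ∃ f : Fin n → ℝ, f ≠ 0 ∧ (srw G).mulVec f = μ • f

/-- Relaxation time `1/(1 - λ₂)`, the largest value of `1/(1 - μ)` over the eigenvalues `μ ≠ 1`
(for a connected graph the eigenvalue `1` is simple). -/
noncomputable def relTime {n : ℕ} (G : SimpleGraph (Fin n)) : ℝ :=
  sSup {t : ℝ | ∃ μ : ℝ, μ ≠ 1 ∧ IsEig G μ ∧ t = 1 / (1 - μ)}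

/-- The set of relaxation times of connected graphs with `m` edges. -/
def relTimes (m : ℕ) : Set ℝ :=
  {t : ℝ | ∃ (n : ℕ) (G : SimpleGraph (Fin n)), G.Connected ∧ G.edgeSet.ncard = m ∧ t = relTime G}

/-- The set of relaxation times of trees with `m` edges. -/
def relTimesTree (m : ℕ) : Set ℝ :=
  {t : ℝ | ∃ (n : ℕ) (G : SimpleGraph (Fin n)), G.IsTree ∧ G.edgeSet.ncard = m ∧ t = relTime G}

open Classical in
theorem eig_iff {n : ℕ} (G : SimpleGraph (Fin n)) (hdeg : ∀ v, 0 < G.degree v) (μ : ℝ)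
    (f : Fin n → ℝ) : (srw G).mulVec f = μ • f ↔
      ∀ v, ∑ u, (if G.Adj v u then f u else 0) = μ * (G.degree v : ℝ) * f v := by
  rw [funext_iff]
  refine forall_congr' fun v => ?_
  have hd : (0 : ℝ) < G.degree v := by exact_mod_cast hdeg v
  have h1 : (srw G).mulVec f v = (∑ u, (if G.Adj v u then f u else 0)) / (G.degree v : ℝ) := by
    simp only [Matrix.mulVec, dotProduct, srw]
    rw [Finset.sum_div]
    refine Finset.sum_congr rfl fun u _ => ?_
    split_ifs <;> ring
  rw [h1, div_eq_iff hd.ne']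
  simp only [Pi.smul_apply, smul_eq_mul]
  constructor <;> intro h <;> rw [h] <;> ring

theorem degree_pos {n : ℕ} (G : SimpleGraph (Fin n)) [DecidableRel G.Adj] (hG : G.Connected)
    {m : ℕ} (hm : G.edgeSet.ncard = m) (hm1 : 1 ≤ m) (v : Fin n) : 0 < G.degree v := by
  classical
  rw [G.degree_pos_iff_exists_adj]
  have hne : G.edgeSet.Nonempty := by
    rw [Set.nonempty_iff_ne_empty]
    intro h
    rw [h, Set.ncard_empty] at hm
    omega
  obtain ⟨e, he⟩ := hne
  induction e using Sym2.ind with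
  | _ x y =>
    rw [SimpleGraph.mem_edgeSet] at he
    by_cases hvx : v = x
    · exact ⟨y, hvx ▸ he⟩
    · obtain ⟨w⟩ := hG.preconnected v x
      cases w with
      | nil => exact absurd rfl hvx
      | cons h _ => exact ⟨_, h⟩

open Classical in
/-- Dirichlet form of an eigenfunction. -/
theorem dirichlet_eig {n : ℕ} (G : SimpleGraph (Fin n)) (μ : ℝ) (f : Fin n → ℝ)
    (hf : ∀ v, ∑ u, (if G.Adj v u then f u else 0) = μ * (G.degree v : ℝ) * f v) :
    (1 / 2 : ℝ) * ∑ u, ∑ v, (if G.Adj u v then (f u - f v) ^ 2 else 0) =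
      (1 - μ) * ∑ v, (G.degree v : ℝ) * f v ^ 2 := by
  have hdeg : ∀ v : Fin n, (G.degree v : ℝ) = ∑ u, (if G.Adj v u then (1 : ℝ) else 0) := by
    intro v
    rw [← G.card_neighborFinset_eq_degree, Finset.card_eq_sum_ones, Nat.cast_sum,
      SimpleGraph.neighborFinset_eq_filter, Finset.sum_filter]
    simp
  have h1 : ∑ u, ∑ v, (if G.Adj u v then (f u - f v) ^ 2 else 0) =
      ∑ u, ∑ v, (if G.Adj u v then f u ^ 2 else 0) + ∑ u, ∑ v, (if G.Adj u v then f v ^ 2 else 0)
        - 2 * ∑ u, f u * ∑ v, (if G.Adj u v then f v else 0) := by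
    rw [Finset.mul_sum, ← Finset.sum_add_distrib, ← Finset.sum_sub_distrib]
    refine Finset.sum_congr rfl fun u _ => ?_
    rw [← mul_assoc, Finset.mul_sum, ← Finset.sum_add_distrib, ← Finset.sum_sub_distrib]
    refine Finset.sum_congr rfl fun v _ => ?_
    split_ifs <;> ring
  have h2 : ∑ u, ∑ v, (if G.Adj u v then f u ^ 2 else 0) = ∑ v, (G.degree v : ℝ) * f v ^ 2 := by
    refine Finset.sum_congr rfl fun u _ => ?_
    rw [hdeg, Finset.sum_mul]
    refine Finset.sum_congr rfl fun v _ => ?_
    split_ifs <;> ring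
  have h3 : ∑ u, ∑ v, (if G.Adj u v then f v ^ 2 else 0) = ∑ v, (G.degree v : ℝ) * f v ^ 2 := by
    rw [Finset.sum_comm, ← h2]
    refine Finset.sum_congr rfl fun u _ => Finset.sum_congr rfl fun v _ => ?_
    simp only [G.adj_comm v u]
  rw [h1, h2, h3]
  have h4 : ∑ u, f u * ∑ v, (if G.Adj u v then f v else 0) =
      μ * ∑ v, (G.degree v : ℝ) * f v ^ 2 := by
    rw [Finset.mul_sum]
    refine Finset.sum_congr rfl fun u _ => ?_
    rw [hf u]; ring
  rw [h4]; ring

/-- Every eigenvalue `μ ≠ 1` of a connected graph with `m` edges is at most `cos (π/m)`. -/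
theorem eig_le {n m : ℕ} (G : SimpleGraph (Fin n)) (hG : G.Connected)
    (hm : G.edgeSet.ncard = m) (hm1 : 1 ≤ m) {μ : ℝ} (hμ : IsEig G μ) (hne : μ ≠ 1) :
    μ ≤ Real.cos (Real.pi / m) := by
  classical
  obtain ⟨f, hf0, hf⟩ := hμ
  have hdp := degree_pos G hG hm hm1
  rw [eig_iff G (by convert hdp) μ f] at hf
  have hcard : G.edgeFinset.card = m := by
    rw [← hm, Set.ncard_eq_toFinset_card']
    rfl
  obtain ⟨c, hc⟩ := Pool.Agent.H43.RelaxTime.poincare G hG hcard hm1 f
  have hD := dirichlet_eig G μ f (by convert hf)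
  have hsum0 : ∑ v, (G.degree v : ℝ) * f v = 0 := by
    have h1 : ∑ v, ∑ u, (if G.Adj v u then f u else 0) = ∑ v, (G.degree v : ℝ) * f v := by
      rw [Finset.sum_comm]
      refine Finset.sum_congr rfl fun u _ => ?_
      rw [← G.card_neighborFinset_eq_degree, SimpleGraph.neighborFinset_eq_filter,
        ← Finset.sum_filter, Finset.sum_const, nsmul_eq_mul]
      simp only [G.adj_comm u]
    have h2 : ∑ v, ∑ u, (if G.Adj v u then f u else 0) = μ * ∑ v, (G.degree v : ℝ) * f v := by
      rw [Finset.mul_sum]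
      refine Finset.sum_congr rfl fun v _ => ?_
      rw [hf v]; ring
    rw [h1] at h2
    have h3 : (1 - μ) * ∑ v, (G.degree v : ℝ) * f v = 0 := by linarith
    rcases mul_eq_zero.mp h3 with h | h
    · exact absurd (by linarith) hne
    · exact h
  have hexp : ∑ v, (G.degree v : ℝ) * (f v - c) ^ 2 =
      ∑ v, (G.degree v : ℝ) * f v ^ 2 + c ^ 2 * ∑ v, (G.degree v : ℝ) := by
    have h1 : ∑ v, (G.degree v : ℝ) * (f v - c) ^ 2 = ∑ v, (G.degree v : ℝ) * f v ^ 2
        - 2 * c * ∑ v, (G.degree v : ℝ) * f v + c ^ 2 * ∑ v, (G.degree v : ℝ) := by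
      rw [Finset.mul_sum, Finset.mul_sum, ← Finset.sum_sub_distrib, ← Finset.sum_add_distrib]
      refine Finset.sum_congr rfl fun v _ => ?_
      ring
    rw [h1, hsum0]; ring
  have hpos : 0 < ∑ v, (G.degree v : ℝ) * f v ^ 2 := by
    obtain ⟨v, hv⟩ := Function.ne_iff.mp hf0
    have hv' : f v ≠ 0 := hv
    have hdv : (0 : ℝ) < G.degree v := by exact_mod_cast hdp v
    calc (0 : ℝ) < (G.degree v : ℝ) * f v ^ 2 := by positivity
      _ ≤ _ := Finset.single_le_sum (f := fun v => (G.degree v : ℝ) * f v ^ 2)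
          (fun u _ => by positivity) (Finset.mem_univ v)
  have hcos1 : 0 ≤ 1 - Real.cos (Real.pi / m) := by
    have := Real.cos_le_one (Real.pi / m)
    linarith
  have hmain : (1 - Real.cos (Real.pi / m)) * ∑ v, (G.degree v : ℝ) * f v ^ 2 ≤
      (1 - μ) * ∑ v, (G.degree v : ℝ) * f v ^ 2 := by
    rw [← hD]
    refine le_trans ?_ (le_trans hc (le_of_eq (by congr!)))
    apply mul_le_mul_of_nonneg_left _ hcos1
    rw [hexp]
    have : 0 ≤ c ^ 2 * ∑ v, (G.degree v : ℝ) := by positivity
    linarith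
  have := le_of_mul_le_mul_right hmain hpos
  linarith

/-! ### The path -/

open Classical in
theorem path_sum (m : ℕ) (v : Fin (m + 1)) (g : ℕ → ℝ) :
    ∑ u : Fin (m + 1), (if (SimpleGraph.pathGraph (m + 1)).Adj v u then g u.val else 0) =
      (if v.val + 1 ≤ m then g (v.val + 1) else 0) + (if 1 ≤ v.val then g (v.val - 1) else 0) := by
  have h : ∀ u : Fin (m + 1),
      (if (SimpleGraph.pathGraph (m + 1)).Adj v u then g u.val else 0) =
      (if v.val + 1 = u.val then g u.val else 0) + (if u.val + 1 = v.val then g u.val else 0) := by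
    intro u
    rw [SimpleGraph.pathGraph_adj]
    by_cases h1 : v.val + 1 = u.val
    · have h2 : ¬ (u.val + 1 = v.val) := by omega
      simp [h1, h2]
    · by_cases h2 : u.val + 1 = v.val
      · simp [h1, h2]
      · simp [h1, h2]
  simp_rw [h, Finset.sum_add_distrib]
  congr 1
  · split_ifs with hv
    · rw [Finset.sum_eq_single (⟨v.val + 1, by omega⟩ : Fin (m + 1))]
      · simp
      · intro b _ hb
        rw [if_neg]
        intro h
        exact hb (Fin.ext h.symm)
      · intro h; exact absurd (Finset.mem_univ _) h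
    · apply Finset.sum_eq_zero
      intro u _
      rw [if_neg]
      have := u.isLt
      omega
  · split_ifs with hv
    · rw [Finset.sum_eq_single (⟨v.val - 1, by omega⟩ : Fin (m + 1))]
      · rw [if_pos (by simp; omega)]
      · intro b _ hb
        rw [if_neg]
        intro h
        exact hb (Fin.ext (by simp; omega))
      · intro h; exact absurd (Finset.mem_univ _) h
    · apply Finset.sum_eq_zero
      intro u _
      rw [if_neg]
      omega

open Classical in
theorem degree_real {n : ℕ} (G : SimpleGraph (Fin n)) (v : Fin n) :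
    (G.degree v : ℝ) = ∑ u, (if G.Adj v u then (1 : ℝ) else 0) := by
  rw [← G.card_neighborFinset_eq_degree, Finset.card_eq_sum_ones, Nat.cast_sum,
    SimpleGraph.neighborFinset_eq_filter, Finset.sum_filter]
  simp

theorem path_edges (m : ℕ) : (SimpleGraph.pathGraph (m + 1)).edgeSet.ncard = m := by
  classical
  have h1 : (SimpleGraph.pathGraph (m + 1)).edgeSet.ncard =
      (SimpleGraph.pathGraph (m + 1)).edgeFinset.card := by
    rw [Set.ncard_eq_toFinset_card']
    rfl
  rw [h1]
  have h2 := (SimpleGraph.pathGraph (m + 1)).sum_degrees_eq_twice_card_edges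
  have h3 : (∑ v, ((SimpleGraph.pathGraph (m + 1)).degree v : ℝ)) = 2 * m := by
    have h4 : ∀ v : Fin (m + 1), ((SimpleGraph.pathGraph (m + 1)).degree v : ℝ) =
        (if v.val + 1 ≤ m then (1 : ℝ) else 0) + (if 1 ≤ v.val then (1 : ℝ) else 0) := by
      intro v
      have := path_sum m v (fun _ => 1)
      rw [← this]
      convert degree_real _ v
    simp_rw [h4, Finset.sum_add_distrib]
    have h5 : ∑ v : Fin (m + 1), (if v.val + 1 ≤ m then (1 : ℝ) else 0) = m := by
      rw [Fin.sum_univ_castSucc]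
      simp
    have h6 : ∑ v : Fin (m + 1), (if 1 ≤ v.val then (1 : ℝ) else 0) = m := by
      rw [Fin.sum_univ_succ]
      simp
    rw [h5, h6]; ring
  have h7 : ((2 * (SimpleGraph.pathGraph (m + 1)).edgeFinset.card : ℕ) : ℝ) = 2 * m := by
    rw [← h2, ← h3]
    push_cast
    rfl
  have h8 : 2 * (SimpleGraph.pathGraph (m + 1)).edgeFinset.card = 2 * m := by exact_mod_cast h7
  omega

theorem path_isTree (m : ℕ) : (SimpleGraph.pathGraph (m + 1)).IsTree := by
  classical
  rw [SimpleGraph.isTree_iff_connected_and_card]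
  refine ⟨SimpleGraph.pathGraph_connected m, ?_⟩
  have := path_edges m
  rw [← Nat.card_coe_set_eq] at this
  rw [this]
  simp

theorem path_eig (m : ℕ) (hm : 1 ≤ m) :
    IsEig (SimpleGraph.pathGraph (m + 1)) (Real.cos (Real.pi / m)) := by
  classical
  have hm0 : (m : ℝ) ≠ 0 := by positivity
  refine ⟨fun i => Real.cos (Real.pi / m * i.val), ?_, ?_⟩
  · intro h
    have := congrFun h ⟨0, by omega⟩
    simp at this
  · rw [eig_iff _ (by
      intro v
      convert degree_pos _ (SimpleGraph.pathGraph_connected m) (path_edges m) hm v)]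
    intro v
    have h1 := path_sum m v (fun i => Real.cos (Real.pi / m * i))
    have h2 := path_sum m v (fun _ => 1)
    have h3 := degree_real (SimpleGraph.pathGraph (m + 1)) v
    rw [h2] at h3
    rw [h1, h3]
    by_cases hv0 : v.val = 0
    · have e1 : v.val + 1 ≤ m := by omega
      have e2 : ¬ (1 ≤ v.val) := by omega
      rw [if_pos e1, if_neg e2, if_pos e1, if_neg e2, hv0]
      simp
    · by_cases hvm : v.val = m
      · have e1 : ¬ (v.val + 1 ≤ m) := by omega
        have e2 : 1 ≤ v.val := by omega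
        rw [if_neg e1, if_pos e2, if_neg e1, if_pos e2, hvm]
        have h4 : Real.pi / m * ((m - 1 : ℕ) : ℝ) = Real.pi - Real.pi / m := by
          rw [Nat.cast_sub hm]
          field_simp
          push_cast
          ring
        have h5 : Real.pi / m * (m : ℝ) = Real.pi := by field_simp
        rw [h4, h5, Real.cos_pi_sub, Real.cos_pi]
        ring
      · have e1 : v.val + 1 ≤ m := by have := v.isLt; omega
        have e2 : 1 ≤ v.val := by omega
        rw [if_pos e1, if_pos e2, if_pos e1, if_pos e2]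
        have h4 : Real.pi / m * ((v.val + 1 : ℕ) : ℝ) = Real.pi / m * v.val + Real.pi / m := by
          push_cast; ring
        have h5 : Real.pi / m * ((v.val - 1 : ℕ) : ℝ) = Real.pi / m * v.val - Real.pi / m := by
          rw [Nat.cast_sub e2]; push_cast; ring
        rw [h4, h5, Real.cos_add, Real.cos_sub]
        ring

theorem one_sub_cos_pos (m : ℕ) (hm : 1 ≤ m) : 0 < 1 - Real.cos (Real.pi / m) := by
  have hm0 : (0 : ℝ) < m := by exact_mod_cast hm
  have h : Real.cos (Real.pi / m) < Real.cos 0 := by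
    apply Real.cos_lt_cos_of_nonneg_of_le_pi le_rfl
    · rw [div_le_iff₀ hm0]
      have : (1 : ℝ) ≤ m := by exact_mod_cast hm
      nlinarith [Real.pi_pos]
    · positivity
  rw [Real.cos_zero] at h
  linarith

theorem relTime_le {n m : ℕ} (G : SimpleGraph (Fin n)) (hG : G.Connected)
    (hm : G.edgeSet.ncard = m) (hm1 : 1 ≤ m) : relTime G ≤ 1 / (1 - Real.cos (Real.pi / m)) := by
  have hpos := one_sub_cos_pos m hm1
  apply Real.sSup_le
  · rintro t ⟨μ, hne, hμ, rfl⟩
    have := eig_le G hG hm hm1 hμ hne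
    exact one_div_le_one_div_of_le hpos (by linarith)
  · positivity

theorem relTime_path (m : ℕ) (hm : 1 ≤ m) :
    relTime (SimpleGraph.pathGraph (m + 1)) = 1 / (1 - Real.cos (Real.pi / m)) := by
  have hpos := one_sub_cos_pos m hm
  apply le_antisymm
  · exact relTime_le _ (SimpleGraph.pathGraph_connected m) (path_edges m) hm
  · apply le_csSup
    · refine ⟨1 / (1 - Real.cos (Real.pi / m)), ?_⟩
      rintro t ⟨μ, hne, hμ, rfl⟩
      have := eig_le _ (SimpleGraph.pathGraph_connected m) (path_edges m) hm hμ hne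
      exact one_div_le_one_div_of_le hpos (by linarith)
    · exact ⟨_, by linarith, path_eig m hm, rfl⟩

/-- The path value is asymptotic to `2m²/π²`. -/
theorem tendsto_ratio :
    Filter.Tendsto
      (fun m : ℕ => 1 / (1 - Real.cos (Real.pi / m)) / (2 * (m : ℝ) ^ 2 / Real.pi ^ 2))
      Filter.atTop (nhds 1) := by
  have h1 : Filter.Tendsto (fun m : ℕ => Real.pi / (m : ℝ) / 2) Filter.atTop (nhds 0) := by
    have := tendsto_const_div_atTop_nhds_zero_nat Real.pi
    simpa using this.div_const 2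
  have h2 : Filter.Tendsto (fun m : ℕ => 1 / Real.sinc (Real.pi / (m : ℝ) / 2) ^ 2)
      Filter.atTop (nhds 1) := by
    have h3 : Filter.Tendsto (fun m : ℕ => Real.sinc (Real.pi / (m : ℝ) / 2))
        Filter.atTop (nhds (Real.sinc 0)) := (Real.continuous_sinc.tendsto 0).comp h1
    rw [Real.sinc_zero] at h3
    have h4 := (h3.pow 2).inv₀ (by norm_num)
    simpa using h4
  refine h2.congr' ?_
  filter_upwards [Filter.eventually_ge_atTop 1] with m hm
  have hm0 : (0 : ℝ) < m := by exact_mod_cast hm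
  have hx : Real.pi / (m : ℝ) / 2 ≠ 0 := by positivity
  have hpos := one_sub_cos_pos m hm
  have hc : 1 - Real.cos (Real.pi / m) = 2 * Real.sin (Real.pi / (m : ℝ) / 2) ^ 2 := by
    have := Real.cos_sq' (Real.pi / (m : ℝ) / 2)
    have h5 := Real.cos_two_mul (Real.pi / (m : ℝ) / 2)
    have h6 : 2 * (Real.pi / (m : ℝ) / 2) = Real.pi / m := by ring
    rw [h6] at h5
    rw [h5, this]; ring
  have hs : Real.sin (Real.pi / (m : ℝ) / 2) ≠ 0 := by
    intro h
    rw [hc, h] at hpos
    simp at hpos
  rw [Real.sinc_of_ne_zero hx, hc]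
  field_simp

/-- **Theorem.** Let `m ≥ 1`.  The path with `m` edges has relaxation time exactly
`1/(1 - cos(π/m))`, and this is the maximum relaxation time over all connected graphs with `m`
edges, and also over all trees with `m` edges.  Consequently both maxima are
`(1 + o(1)) · 2m²/π²`. -/
theorem result :
    (∀ m : ℕ, 1 ≤ m →
      relTime (SimpleGraph.pathGraph (m + 1)) = 1 / (1 - Real.cos (Real.pi / m)) ∧
      IsGreatest (relTimes m) (relTime (SimpleGraph.pathGraph (m + 1))) ∧
      IsGreatest (relTimesTree m) (relTime (SimpleGraph.pathGraph (m + 1)))) ∧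
    Filter.Tendsto (fun m : ℕ => sSup (relTimes m) / (2 * (m : ℝ) ^ 2 / Real.pi ^ 2))
      Filter.atTop (nhds 1) ∧
    Filter.Tendsto (fun m : ℕ => sSup (relTimesTree m) / (2 * (m : ℝ) ^ 2 / Real.pi ^ 2))
      Filter.atTop (nhds 1) := by
  have h1 : ∀ m : ℕ, 1 ≤ m →
      relTime (SimpleGraph.pathGraph (m + 1)) = 1 / (1 - Real.cos (Real.pi / m)) ∧
      IsGreatest (relTimes m) (relTime (SimpleGraph.pathGraph (m + 1))) ∧
      IsGreatest (relTimesTree m) (relTime (SimpleGraph.pathGraph (m + 1))) := by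
    intro m hm
    refine ⟨relTime_path m hm, ⟨?_, ?_⟩, ⟨?_, ?_⟩⟩
    · exact ⟨m + 1, SimpleGraph.pathGraph (m + 1), SimpleGraph.pathGraph_connected m,
        path_edges m, rfl⟩
    · rintro t ⟨n, G, hG, hGm, rfl⟩
      rw [relTime_path m hm]
      exact relTime_le G hG hGm hm
    · exact ⟨m + 1, SimpleGraph.pathGraph (m + 1), path_isTree m, path_edges m, rfl⟩
    · rintro t ⟨n, G, hG, hGm, rfl⟩
      rw [relTime_path m hm]
      exact relTime_le G hG.connected hGm hm
  refine ⟨h1, ?_, ?_⟩
  · refine tendsto_ratio.congr' ?_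
    filter_upwards [Filter.eventually_ge_atTop 1] with m hm
    rw [(h1 m hm).2.1.csSup_eq, (h1 m hm).1]
  · refine tendsto_ratio.congr' ?_
    filter_upwards [Filter.eventually_ge_atTop 1] with m hm
    rw [(h1 m hm).2.2.csSup_eq, (h1 m hm).1]

end Pool.Agent.Results.MP_ea35a0_co.ExactMax
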