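import Mathlib
import Pool.Agent.Results.MP_ea35a0_co.ExactMax
import Pool.Agent.H43.Stab.Upper
import Pool.Agent.H43.Stab.LowerB
import Pool.Agent.H43.Stab.Uniq
import Pool.Agent.H43.Stab.Broom
import Pool.Agent.H43.Stab.Star

set_option autoImplicit false

/-!
Stability for the relaxation time: among connected graphs with `m` edges the relaxation time is
within a factor `1 - ε` of the maximum (attained by the path) only if the diameter is at least
`(1 - 100 ε^(1/3)) m`, and conversely. Both exponents are best possible, already for trees.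
-/

namespace Pool.Agent.Results.MP_ea35a0_co.Stability

open Finset Pool.Agent.H43.Stab
open Pool.Agent.Results.MP_ea35a0_co.ExactMax

theorem mul_sin_le {a s : ℝ} (ha0 : 0 ≤ a) (ha1 : a ≤ 1) (hs0 : 0 ≤ s) (hs1 : s ≤ Real.pi) :
    a * Real.sin s ≤ Real.sin (a * s) := by
  have hx : s ∈ Set.Icc 0 Real.pi := ⟨hs0, hs1⟩
  have hy : (0 : ℝ) ∈ Set.Icc 0 Real.pi := ⟨le_rfl, Real.pi_pos.le⟩
  have hb : (0 : ℝ) ≤ 1 - a := by linarith
  have hab : a + (1 - a) = 1 := by ring
  have h1 := strictConcaveOn_sin_Icc.concaveOn.2 hx hy ha0 hb hab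
  simpa only [smul_eq_mul, Real.sin_zero, mul_zero, add_zero] using h1

/-- Comparison of the relaxation times of the paths with `2h` and `2h + k` edges. -/
theorem path_ratio (h k : ℕ) (hh : 1 ≤ h) :
    1 / (1 - Real.cos (Real.pi / (2 * h : ℕ))) ≤
      (1 - (k : ℝ) / (2 * h + k : ℕ) / 2) * (1 / (1 - Real.cos (Real.pi / (2 * h + k : ℕ)))) := by
  have hpi := Real.pi_pos
  have hh1 : (1 : ℝ) ≤ h := by exact_mod_cast hh
  have hpos1 := one_sub_cos_pos (2 * h) (by omega)
  have hpos2 := one_sub_cos_pos (2 * h + k) (by omega)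
  set m := 2 * h + k with hm
  have hmpos : (0 : ℝ) < (m : ℕ) := by exact_mod_cast (by omega : 0 < m)
  have hmr : (m : ℝ) = 2 * h + k := by rw [hm]; push_cast; ring
  set δ := (k : ℝ) / m with hδ
  have hδ0 : 0 ≤ δ := by positivity
  have hδ1 : δ ≤ 1 := by
    rw [hδ, div_le_one hmpos, hmr]
    linarith
  have hcos : ∀ t : ℝ, 1 - Real.cos t = 2 * Real.sin (t / 2) ^ 2 := by
    intro t
    have h3 : Real.cos t = Real.cos (2 * (t / 2)) := by ring_nf
    rw [h3, Real.cos_two_mul]
    have := Real.sin_sq_add_cos_sq (t / 2)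
    linarith
  set s := Real.pi / (2 * h : ℕ) / 2 with hs
  have hs' : s = Real.pi / (4 * h) := by rw [hs]; push_cast; field_simp; norm_num
  have hs0 : 0 < s := by rw [hs']; positivity
  have hs4 : s ≤ Real.pi / 4 := by
    rw [hs']
    apply div_le_div_of_nonneg_left hpi.le (by norm_num)
    linarith
  have hsm : Real.pi / m / 2 = s - δ * s := by
    rw [hs', hδ, hmr]
    have : (2 * (h : ℝ) + k) ≠ 0 := by positivity
    field_simp
    ring
  have hcs : (0.7 : ℝ) ≤ Real.cos s := by
    have h1 : Real.cos (Real.pi / 4) ≤ Real.cos s :=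
      Real.cos_le_cos_of_nonneg_of_le_pi hs0.le (by linarith) hs4
    rw [Real.cos_pi_div_four] at h1
    have h2 : (1.4 : ℝ) ≤ Real.sqrt 2 := by
      apply Real.le_sqrt_of_sq_le
      norm_num
    linarith
  have hss : 0 < Real.sin s := Real.sin_pos_of_pos_of_lt_pi hs0 (by linarith)
  have hmain : Real.sin (Real.pi / m / 2) ≤ (1 - 0.7 * δ) * Real.sin s := by
    rw [hsm, Real.sin_sub]
    have h1 := mul_sin_le hδ0 hδ1 hs0.le (by linarith)
    have h2 : Real.sin s * Real.cos (δ * s) ≤ Real.sin s * 1 :=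
      mul_le_mul_of_nonneg_left (Real.cos_le_one _) hss.le
    have h3 : 0.7 * (δ * Real.sin s) ≤ Real.cos s * Real.sin (δ * s) := by
      apply mul_le_mul hcs h1
      · positivity
      · linarith
    linarith
  have hsm0 : 0 ≤ Real.sin (Real.pi / m / 2) := by
    apply Real.sin_nonneg_of_nonneg_of_le_pi
    · positivity
    · rw [hsm]
      have : 0 ≤ δ * s := by positivity
      linarith
  have hsq : Real.sin (Real.pi / m / 2) ^ 2 ≤ (1 - δ / 2) * Real.sin s ^ 2 := by
    calc Real.sin (Real.pi / m / 2) ^ 2 ≤ ((1 - 0.7 * δ) * Real.sin s) ^ 2 :=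
          pow_le_pow_left₀ hsm0 hmain 2
      _ = (1 - 0.7 * δ) ^ 2 * Real.sin s ^ 2 := by ring
      _ ≤ (1 - δ / 2) * Real.sin s ^ 2 := by
          apply mul_le_mul_of_nonneg_right _ (by positivity)
          nlinarith
  rw [mul_one_div, div_le_div_iff₀ hpos1 hpos2, one_mul, hcos (Real.pi / m),
    hcos (Real.pi / (2 * h : ℕ)), ← hs]
  linarith

theorem result :
    (∀ (n m : ℕ) (G : SimpleGraph (Fin n)), G.Connected → G.edgeSet.ncard = m → 1 ≤ m →
      ∀ δ : ℝ, δ = ((m : ℝ) - G.diam) / m →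
        0 ≤ δ ∧ δ < 1 ∧
        (1 - δ) ^ 3 / (1 + δ) * relTime (SimpleGraph.pathGraph (m + 1)) ≤ relTime G ∧
        relTime G ≤ (1 - δ ^ 3 / 10 ^ 6) * relTime (SimpleGraph.pathGraph (m + 1)) ∧
        (relTime G = relTime (SimpleGraph.pathGraph (m + 1)) →
          Nonempty (SimpleGraph.pathGraph (m + 1) ≃g G))) ∧
    (∀ m k : ℕ, 1 ≤ k → k + 2 ≤ m → ∃ T : SimpleGraph (Fin (m + 1)),
      T.IsTree ∧ T.edgeSet.ncard = m ∧ T.diam = m - k ∧
        (1 - 1000 * ((k : ℝ) / m) ^ 3) * relTime (SimpleGraph.pathGraph (m + 1)) ≤ relTime T) ∧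
    (∀ m k : ℕ, k + 2 ≤ m → Even (m - k) → ∃ T : SimpleGraph (Fin (m + 1)),
      T.IsTree ∧ T.edgeSet.ncard = m ∧ T.diam = m - k ∧
        relTime T ≤ (1 - (k : ℝ) / m / 2) * relTime (SimpleGraph.pathGraph (m + 1))) := by
  refine ⟨?_, ?_, ?_⟩
  · rintro n m G hG hm hm1 δ rfl
    have hD1 := one_le_diam G hG hm hm1
    have hDm := diam_le G hG hm
    have hmpos : (0 : ℝ) < m := by exact_mod_cast (by omega : 0 < m)
    have hDpos : (0 : ℝ) < G.diam := by exact_mod_cast (by omega : 0 < G.diam)
    have hDm' : (G.diam : ℝ) ≤ m := by exact_mod_cast hDm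
    have hpos := one_sub_cos_pos m hm1
    rw [relTime_path m hm1]
    refine ⟨?_, ?_, relTime_lower' G hG hm hm1, relTime_upper G hG hm hm1, ?_⟩
    · exact div_nonneg (by linarith) hmpos.le
    · rw [div_lt_one hmpos]
      linarith
    · intro heq
      apply iso_of_diam G hG hm
      have h1 := relTime_upper G hG hm hm1
      rw [heq] at h1
      have h2 : 0 < 1 / (1 - Real.cos (Real.pi / m)) := by positivity
      have h3 : (((m : ℝ) - G.diam) / m) ^ 3 ≤ 0 := by
        by_contra hcon
        push Not at hcon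
        nlinarith
      have h4 : ((m : ℝ) - G.diam) / m ≤ 0 := by
        by_contra hcon
        push Not at hcon
        have := pow_pos hcon 3
        linarith
      have h5 : (m : ℝ) - G.diam ≤ 0 := by
        rw [div_le_iff₀ hmpos] at h4
        linarith
      have h6 : (m : ℝ) ≤ G.diam := by linarith
      have h7 : m ≤ G.diam := by exact_mod_cast h6
      omega
  · intro m k hk hkm
    refine ⟨leafPath m (m - k) (m - k - 1) (by omega), leafPath_isTree _ _ _ _,
      leafPath_edges _ _ _ _, leafPath_diam m (m - k) (m - k - 1) (by omega) (by omega) (by omega), ?_⟩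
    rw [relTime_path m (by omega)]
    exact broom_lower m k hk hkm
  · intro m k hkm hev
    obtain ⟨h, hh⟩ := hev
    have hh1 : 1 ≤ h := by omega
    have hmk : m - k = 2 * h := by omega
    rw [hmk]
    refine ⟨leafPath m (2 * h) h (by omega), leafPath_isTree _ _ _ _,
      leafPath_edges _ _ _ _, leafPath_diam m (2 * h) h (by omega) (by omega) (by omega), ?_⟩
    rw [relTime_path m (by omega)]
    have hm2 : m = 2 * h + k := by omega
    have h1 := path_ratio h k hh1
    rw [← hm2] at h1
    refine le_trans ?_ h1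
    have hpos := one_sub_cos_pos (2 * h) (by omega)
    apply Real.sSup_le
    · rintro t ⟨μ, hne, hμ, rfl⟩
      have := star_eig m h hh1 (by omega) hμ hne
      exact one_div_le_one_div_of_le hpos (by linarith)
    · positivity

end Pool.Agent.Results.MP_ea35a0_co.Stability
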